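import Mathlib

/-!
# Erdos-Szekeres for chords

Among 19 chords with different ends there are four nested ones, four crossing ones or three separated ones.
-/

set_option autoImplicit false

namespace NTU

universe u
variable {α : Type u}

/-- seven chords with increasing ends -/
theorem es7 {l r : ℕ → ℕ} (hl : ∀ i j, i < j → j < 7 → l i < l j) (hr : ∀ i j, i < j → j < 7 → r i < r j)
    (hlr : ∀ i < 7, l i < r i) (hne : ∀ i < 7, ∀ j < 7, l i ≠ r j) :
    (∃ a b c d, a < b ∧ b < c ∧ c < d ∧ d < 7 ∧ l d < r a) ∨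
      (∃ a b c, a < b ∧ b < c ∧ c < 7 ∧ r a < l b ∧ r b < l c) := by
  by_cases h1 : l 3 < r 0
  · exact Or.inl ⟨0, 1, 2, 3, by omega, by omega, by omega, by omega, h1⟩
  by_cases h2 : l 6 < r 3
  · exact Or.inl ⟨3, 4, 5, 6, by omega, by omega, by omega, by omega, h2⟩
  · have e1 := hne 3 (by omega) 0 (by omega)
    have e2 := hne 6 (by omega) 3 (by omega)
    exact Or.inr ⟨0, 3, 6, by omega, by omega, by omega, by omega, by omega⟩

/-- an increasing enumeration of seven elements -/
theorem enum7 (G : Finset α) (l : α → ℕ) (hl : ∀ s ∈ G, ∀ t ∈ G, l s = l t → s = t) (h7 : 7 ≤ G.card) :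
    ∃ x : ℕ → α, (∀ i < 7, x i ∈ G) ∧ ∀ i j, i < j → j < 7 → l (x i) < l (x j) := by
  classical
  obtain ⟨H, hHG, hH⟩ := Finset.exists_subset_card_eq h7
  have hcard : (H.image l).card = 7 := by
    rw [Finset.card_image_of_injOn, hH]
    intro s hs t ht hst
    exact hl s (hHG hs) t (hHG ht) hst
  have hmem : ∀ i : Fin 7, ∃ s ∈ H, l s = (H.image l).orderEmbOfFin hcard i := by
    intro i
    have := Finset.orderEmbOfFin_mem (H.image l) hcard i
    rw [Finset.mem_image] at this
    exact this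
  choose y hy1 hy2 using hmem
  refine ⟨fun i => if h : i < 7 then y ⟨i, h⟩ else y ⟨0, by omega⟩, ?_, ?_⟩
  · intro i hi
    simp only [dif_pos hi]
    exact hHG (hy1 _)
  · intro i j hij hj
    simp only [dif_pos (hij.trans hj), dif_pos hj, hy2]
    exact ((H.image l).orderEmbOfFin hcard).strictMono (by simpa using hij)

theorem es19 (G : Finset α) (l r : α → ℕ) (hl : ∀ s ∈ G, ∀ t ∈ G, l s = l t → s = t)
    (hr : ∀ s ∈ G, ∀ t ∈ G, r s = r t → s = t) (hlr : ∀ s ∈ G, l s < r s)
    (hne : ∀ s ∈ G, ∀ t ∈ G, l s ≠ r t) (h19 : 19 ≤ G.card) :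
    (∃ a ∈ G, ∃ b ∈ G, ∃ c ∈ G, ∃ d ∈ G, l a < l b ∧ l b < l c ∧ l c < l d ∧ r d < r c ∧ r c < r b ∧ r b < r a) ∨
    (∃ a ∈ G, ∃ b ∈ G, ∃ c ∈ G, ∃ d ∈ G, l a < l b ∧ l b < l c ∧ l c < l d ∧ l d < r a ∧ r a < r b ∧ r b < r c ∧
      r c < r d) ∨
    (∃ a ∈ G, ∃ b ∈ G, ∃ c ∈ G, r a < l b ∧ r b < l c) := by
  classical
  by_cases hnest : ∃ a ∈ G, ∃ b ∈ G, ∃ c ∈ G, ∃ d ∈ G,
      l a < l b ∧ l b < l c ∧ l c < l d ∧ r d < r c ∧ r c < r b ∧ r b < r a
  · exact Or.inl hnest
  right
  -- levels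
  let P1 : α → Prop := fun x => ∃ y ∈ G, l y < l x ∧ r x < r y
  let P2 : α → Prop := fun x => ∃ z ∈ G, ∃ y ∈ G, l z < l y ∧ r y < r z ∧ l y < l x ∧ r x < r y
  let G0 := G.filter (fun x => ¬ P1 x)
  let G1 := G.filter (fun x => P1 x ∧ ¬ P2 x)
  let G2 := G.filter (fun x => P2 x)
  have hcov : G ⊆ G0 ∪ (G1 ∪ G2) := by
    intro x hx
    simp only [G0, G1, G2, Finset.mem_union, Finset.mem_filter]
    by_cases h1 : P1 x
    · by_cases h2 : P2 x
      · exact Or.inr (Or.inr ⟨hx, h2⟩)
      · exact Or.inr (Or.inl ⟨hx, h1, h2⟩)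
    · exact Or.inl ⟨hx, h1⟩
  have hc : 19 ≤ G0.card + (G1.card + G2.card) := by
    calc 19 ≤ G.card := h19
      _ ≤ (G0 ∪ (G1 ∪ G2)).card := Finset.card_le_card hcov
      _ ≤ G0.card + (G1 ∪ G2).card := Finset.card_union_le _ _
      _ ≤ G0.card + (G1.card + G2.card) := by
        have := Finset.card_union_le G1 G2
        omega
  have key : ∃ H : Finset α, H ⊆ G ∧ 7 ≤ H.card ∧ ∀ x ∈ H, ∀ y ∈ H, l x < l y → ¬ r y < r x := by
    have h3 : 7 ≤ G0.card ∨ 7 ≤ G1.card ∨ 7 ≤ G2.card := by omega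
    rcases h3 with h3 | h3 | h3
    · refine ⟨G0, Finset.filter_subset _ _, h3, ?_⟩
      intro x hx y hy hxy hr'
      simp only [G0, Finset.mem_filter] at hx hy
      exact hy.2 ⟨x, hx.1, hxy, hr'⟩
    · refine ⟨G1, Finset.filter_subset _ _, h3, ?_⟩
      intro x hx y hy hxy hr'
      simp only [G1, Finset.mem_filter] at hx hy
      obtain ⟨z, hz, hz1, hz2⟩ := hx.2.1
      exact hy.2.2 ⟨z, hz, x, hx.1, hz1, hz2, hxy, hr'⟩
    · refine ⟨G2, Finset.filter_subset _ _, h3, ?_⟩
      intro x hx y hy hxy hr'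
      simp only [G2, Finset.mem_filter] at hx hy
      obtain ⟨z, hz, w, hw, h4, h5, h6, h7⟩ := hx.2
      exact hnest ⟨z, hz, w, hw, x, hx.1, y, hy.1, h4, h6, hxy, hr', h7, h5⟩
  obtain ⟨H, hHG, h7, hH⟩ := key
  obtain ⟨x, hx1, hx2⟩ := enum7 H l (fun s hs t ht => hl s (hHG hs) t (hHG ht)) h7
  have hrr : ∀ i j, i < j → j < 7 → r (x i) < r (x j) := by
    intro i j hij hj
    have h1 := hH (x i) (hx1 i (by omega)) (x j) (hx1 j hj) (hx2 i j hij hj)
    have h2 : r (x i) ≠ r (x j) := by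
      intro h
      have := hr _ (hHG (hx1 i (by omega))) _ (hHG (hx1 j hj)) h
      have h3 := hx2 i j hij hj
      rw [this] at h3
      exact lt_irrefl _ h3
    omega
  rcases es7 (l := fun i => l (x i)) (r := fun i => r (x i)) hx2 hrr (fun i hi => hlr _ (hHG (hx1 i hi)))
    (fun i hi j hj => hne _ (hHG (hx1 i hi)) _ (hHG (hx1 j hj))) with ⟨a, b, c, d, hab, hbc, hcd, hd, h⟩ | ⟨a, b, c, hab, hbc, hc7, h, h'⟩
  · left
    exact ⟨x a, hHG (hx1 a (by omega)), x b, hHG (hx1 b (by omega)), x c, hHG (hx1 c (by omega)), x d, hHG (hx1 d hd),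
      hx2 a b hab (by omega), hx2 b c hbc (by omega), hx2 c d hcd hd, h, hrr a b hab (by omega),
      hrr b c hbc (by omega), hrr c d hcd hd⟩
  · right
    exact ⟨x a, hHG (hx1 a (by omega)), x b, hHG (hx1 b (by omega)), x c, hHG (hx1 c hc7), h, h'⟩

/-! ## Decomposition of a word at tokens with increasing positions -/

theorem decomp1 [DecidableEq α] {A : List α} {s t : α} (hs : s ∈ A) (hst : A.idxOf s < A.idxOf t) (ht : t ∈ A) :
    ∃ X Y, A = X ++ s :: Y ∧ t ∈ Y ∧ s ∉ X := by
  induction A with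
  | nil => simp at hs
  | cons a A ih =>
    by_cases h : a = s
    · subst h
      refine ⟨[], A, rfl, ?_, by simp⟩
      rcases List.mem_cons.mp ht with h | h
      · subst h
        exact absurd hst (lt_irrefl _)
      · exact h
    · have hs' : s ∈ A := by
        rcases List.mem_cons.mp hs with h' | h'
        · exact absurd h'.symm h
        · exact h'
      rw [List.idxOf_cons_ne _ (by simpa using h)] at hst
      by_cases h2 : a = t
      · subst h2
        simp at hst
      · rw [List.idxOf_cons_ne _ (by simpa using h2)] at hst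
        have ht' : t ∈ A := by
          rcases List.mem_cons.mp ht with h' | h'
          · exact absurd h'.symm h2
          · exact h'
        obtain ⟨X, Y, h3, h4, h5⟩ := ih hs' (by omega) ht'
        refine ⟨a :: X, Y, by rw [h3]; rfl, h4, ?_⟩
        simp only [List.mem_cons, not_or]
        exact ⟨fun h' => h h'.symm, h5⟩

theorem idx_after [DecidableEq α] {X Y : List α} {s t : α} (hn : (X ++ s :: Y).Nodup) (ht : t ∈ Y) :
    (X ++ s :: Y).idxOf t = X.length + 1 + Y.idxOf t := by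
  have h1 : t ∉ X := by
    intro h
    exact (List.nodup_append.mp hn).2.2 t h t (by simp [ht]) rfl
  have h2 : s ≠ t := by
    intro h
    subst h
    exact (List.nodup_cons.mp (List.nodup_append.mp hn).2.1).1 ht
  rw [List.idxOf_append_of_notMem h1, List.idxOf_cons_ne _ h2]
  omega

/-- tokens with increasing positions cut the word into blocks -/
theorem decomp [DecidableEq α] : ∀ (ts : List α) (A : List α), A.Nodup → (∀ t ∈ ts, t ∈ A) →
    ts.Pairwise (fun s t => A.idxOf s < A.idxOf t) →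
    ∃ (X0 : List α) (Xs : List (List α)), Xs.length = ts.length ∧
      A = X0 ++ (List.zipWith (fun t X => t :: X) ts Xs).flatten := by
  intro ts
  induction ts with
  | nil => intro A _ _ _; exact ⟨A, [], rfl, by simp⟩
  | cons s ts ih =>
    intro A hn hm hp
    obtain ⟨hp1, hp2⟩ := List.pairwise_cons.mp hp
    have hs : s ∈ A := hm s (by simp)
    obtain ⟨X, Y, hA⟩ : ∃ X Y, A = X ++ s :: Y := List.append_of_mem hs
    have hnX : (X ++ s :: Y).Nodup := hA ▸ hn
    have hsX : s ∉ X := by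
      intro h
      exact (List.nodup_append.mp hnX).2.2 s h s (by simp) rfl
    have hidx : A.idxOf s = X.length := by
      rw [hA, List.idxOf_append_of_notMem hsX]
      simp
    have hY : ∀ t ∈ ts, t ∈ Y := by
      intro t ht
      have h1 : t ∈ A := hm t (by simp [ht])
      have h2 := hp1 t ht
      rw [hA] at h1
      rcases List.mem_append.mp h1 with h | h
      · exfalso
        have : A.idxOf t < X.length := by
          rw [hA, List.idxOf_append_of_mem h]
          exact List.idxOf_lt_length_iff.mpr h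
        omega
      · rcases List.mem_cons.mp h with h | h
        · subst h; exact absurd h2 (lt_irrefl _)
        · exact h
    have hnY : Y.Nodup := (List.nodup_cons.mp (List.nodup_append.mp hnX).2.1).2
    obtain ⟨X1, Xs, h3, h4⟩ := ih Y hnY hY (by
      refine hp2.imp_of_mem ?_
      intro a b ha hb hab
      rw [hA, idx_after hnX (hY a ha), idx_after hnX (hY b hb)] at hab
      omega)
    refine ⟨X, X1 :: Xs, by simp [h3], ?_⟩
    rw [hA]
    simp only [List.zipWith_cons_cons, List.flatten_cons]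
    rw [List.cons_append, ← h4]

end NTU
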