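import Pool.Agent.helper2.NTU.RR

/-!
# Finite checks: permuted contents destroy run-reversal
-/

set_option autoImplicit false

namespace NTU

/-- rotation which starts with `0` -/
def rot0 (l : List ℕ) : List ℕ := l.dropWhile (fun x => x != 0) ++ l.takeWhile (fun x => x != 0)

theorem rot0_rot (l : List ℕ) : rot0 l ~r l := by
  unfold rot0
  conv_rhs => rw [← List.takeWhile_append_dropWhile (p := fun x => x != 0) (l := l)]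
  exact List.isRotated_append

/-- the words of five letters which are not run-reversals of `01234` -/
def nrr5 : List (List ℕ) :=
  [[0, 2, 1, 4, 3], [0, 2, 4, 1, 3], [0, 2, 4, 3, 1], [0, 3, 1, 4, 2], [0, 3, 2, 4, 1],
   [0, 4, 1, 3, 2], [0, 4, 2, 1, 3]]

theorem not_RR5 : ∀ t ∈ nrr5, ¬ RR [0, 1, 2, 3, 4] t := by
  intro t ht
  apply not_RR_of (by simp)
  revert t
  decide

/-- relabelling by the positions in `xs` -/
def rel (xs : List ℕ) (b : List ℕ) : List ℕ := b.filterMap (fun x => xs.idxOf? x)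

def tst (xs b : List ℕ) : Bool := nrr5.contains (rot0 (rel xs b))

theorem not_RR_tst (w xs b : List ℕ) (h1 : rel xs w ~r [0, 1, 2, 3, 4]) (h2 : tst xs b = true) :
    ¬ RR w b := by
  intro h
  have h3 : RR (rel xs w) (rel xs b) := h.filterMap _
  have h4 : RR [0, 1, 2, 3, 4] (rot0 (rel xs b)) := (h3.rotl h1.symm).rotr (rot0_rot _)
  refine not_RR5 _ ?_ h4
  simpa [tst] using h2

theorem check (n : ℕ) (hn : n ≠ 0) (res : List (List ℕ)) (tests : List (List ℕ × List ℕ))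
    (h1 : ∀ t ∈ tests, t.1 ∈ res ∧ rel t.2 t.1 ~r [0, 1, 2, 3, 4])
    (h2 : ((List.range n).all fun i => (revs ((List.range n).rotate i)).all fun q =>
      tests.any fun t => tst t.2 (q.1 ++ q.2)) = true) :
    ∀ b, RR (List.range n) b → ∃ w ∈ res, ¬ RR w b := by
  intro b hb
  obtain ⟨i, hi, q, hq, hbq⟩ := hb.enum (by simpa using hn)
  rw [List.length_range] at hi
  rw [List.all_eq_true] at h2
  have h3 := h2 i (by simpa using hi)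
  rw [List.all_eq_true] at h3
  have h4 := h3 q hq
  rw [List.any_eq_true] at h4
  obtain ⟨t, ht, h5⟩ := h4
  obtain ⟨h6, h7⟩ := h1 t ht
  exact ⟨t.1, h6, fun h => not_RR_tst t.1 t.2 _ h7 h5 (h.rotr hbq.symm)⟩

theorem seqAB : ∀ b, RR (List.range 6) b →
    ∃ w ∈ [[0, 4, 1, 3, 5, 2], [0, 3, 5, 1, 4, 2]], ¬ RR w b :=
  check 6 (by simp) _ [([0, 4, 1, 3, 5, 2], [4, 1, 3, 5, 2]), ([0, 3, 5, 1, 4, 2], [0, 3, 1, 4, 2]),
    ([0, 3, 5, 1, 4, 2], [3, 5, 1, 4, 2]), ([0, 3, 5, 1, 4, 2], [0, 3, 5, 1, 2]),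
    ([0, 4, 1, 3, 5, 2], [0, 4, 1, 3, 2])] (by decide) (by decide +kernel)

theorem seqAC : ∀ b, RR (List.range 6) b →
    ∃ w ∈ [[0, 4, 1, 3, 5, 2], [0, 4, 2, 5, 1, 3]], ¬ RR w b :=
  check 6 (by simp) _ [([0, 4, 1, 3, 5, 2], [4, 1, 3, 5, 2]), ([0, 4, 2, 5, 1, 3], [0, 4, 2, 5, 1]),
    ([0, 4, 2, 5, 1, 3], [0, 2, 5, 1, 3]), ([0, 4, 2, 5, 1, 3], [0, 4, 2, 1, 3]),
    ([0, 4, 1, 3, 5, 2], [0, 4, 1, 5, 2])] (by decide) (by decide +kernel)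

theorem cross : ∀ b, RR (List.range 8) b →
    ∃ w ∈ [[0, 2, 1, 3, 4, 6, 5, 7], [0, 2, 3, 1, 4, 6, 7, 5], [0, 3, 1, 2, 4, 7, 5, 6],
      [0, 1, 3, 2, 4, 5, 7, 6]], ¬ RR w b :=
  check 8 (by simp) _ [([0, 2, 3, 1, 4, 6, 7, 5], [0, 2, 1, 7, 5]),
    ([0, 2, 1, 3, 4, 6, 5, 7], [1, 4, 6, 5, 7]), ([0, 2, 1, 3, 4, 6, 5, 7], [0, 2, 1, 3, 6]),
    ([0, 2, 3, 1, 4, 6, 7, 5], [0, 2, 3, 1, 4]), ([0, 1, 3, 2, 4, 5, 7, 6], [1, 3, 2, 5, 7]),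
    ([0, 3, 1, 2, 4, 7, 5, 6], [0, 1, 2, 7, 5]), ([0, 2, 1, 3, 4, 6, 5, 7], [0, 1, 6, 5, 7])]
    (by decide) (by decide +kernel)

theorem nest : ∀ b, RR (List.range 8) b →
    ∃ w ∈ [[0, 7, 2, 1, 6, 3, 4, 5], [0, 7, 2, 3, 1, 5, 6, 4], [0, 6, 7, 3, 1, 2, 5, 4],
      [0, 1, 6, 3, 2, 5, 4, 7]], ¬ RR w b :=
  check 8 (by simp) _ [([0, 7, 2, 1, 6, 3, 4, 5], [0, 7, 2, 1, 3]),
    ([0, 1, 6, 3, 2, 5, 4, 7], [1, 3, 2, 4, 7]), ([0, 6, 7, 3, 1, 2, 5, 4], [0, 3, 1, 2, 4]),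
    ([0, 1, 6, 3, 2, 5, 4, 7], [0, 1, 6, 3, 2]), ([0, 1, 6, 3, 2, 5, 4, 7], [6, 2, 5, 4, 7])]
    (by decide) (by decide +kernel)

end NTU
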