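import Pool.Agent.helper2.NTU.UN

/-!
# Un-reversing: the main combinatorial statement (MP_c8d30a (A), section 5)

`g` sends a token to its letter in the core (`none` for red and blue tokens).
-/

set_option autoImplicit false

namespace NTU

universe u v
variable {Ω : Type u} {κ : Type v}

/-- three separated, crossing or nested letters of `A` with an un-reversing composite -/
def Out (p : Ω → Ω) (g : Ω → Option κ) (F : List Ω) (K : List κ) (A : List Ω) (b : List κ) : Prop :=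
  ∃ (r s t : Ω) (X0 X1 X2 X3 X4 X5 X6 : List Ω), (r ∈ F ∨ p r ∈ F) ∧ (s ∈ F ∨ p s ∈ F) ∧ (t ∈ F ∨ p t ∈ F) ∧
    ((A = X0 ++ r :: (X1 ++ p r :: (X2 ++ s :: (X3 ++ p s :: (X4 ++ t :: (X5 ++ p t :: X6))))) ∧
      (¬ RR (K ++ (sA X0 X1 X2 X3 X4 X5 X6).filterMap g) b ∨ ¬ RR (K ++ (sB X0 X1 X2 X3 X4 X5 X6).filterMap g) b) ∧
      (¬ RR (K ++ (sA X0 X1 X2 X3 X4 X5 X6).filterMap g) b ∨ ¬ RR (K ++ (sC X0 X1 X2 X3 X4 X5 X6).filterMap g) b)) ∨
    (A = X0 ++ r :: (X1 ++ s :: (X2 ++ t :: (X3 ++ p r :: (X4 ++ p s :: (X5 ++ p t :: X6))))) ∧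
      ¬ RR (K ++ (cr X0 X1 X2 X3 X4 X5 X6).filterMap g) b) ∨
    (A = X0 ++ r :: (X1 ++ s :: (X2 ++ t :: (X3 ++ p t :: (X4 ++ p s :: (X5 ++ p r :: X6))))) ∧
      ¬ RR (K ++ (ne X0 X1 X2 X3 X4 X5 X6).filterMap g) b))

theorem list8 {α : Type*} {Xs : List α} (h : Xs.length = 8) :
    ∃ a b c d e f g h, Xs = [a, b, c, d, e, f, g, h] := by
  match Xs, h with
  | [a, b, c, d, e, f, g, h], _ => exact ⟨a, b, c, d, e, f, g, h, rfl⟩

theorem list6 {α : Type*} {Xs : List α} (h : Xs.length = 6) :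
    ∃ a b c d e f, Xs = [a, b, c, d, e, f] := by
  match Xs, h with
  | [a, b, c, d, e, f], _ => exact ⟨a, b, c, d, e, f, rfl⟩

theorem core_ne {g : Ω → Option κ} {X : List Ω} (h : ∃ x ∈ X, g x ≠ none) : X.filterMap g ≠ [] := by
  obtain ⟨x, hx, hg⟩ := h
  obtain ⟨k, hk⟩ := Option.ne_none_iff_exists'.mp hg
  intro h0
  have : k ∈ X.filterMap g := List.mem_filterMap.mpr ⟨x, hx, hk⟩
  rw [h0] at this
  simp at this

theorem unr [DecidableEq Ω] {p : Ω → Ω} (hinv : ∀ t, p (p t) = t) (hnp : ∀ t, p t ≠ t) {g : Ω → Option κ}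
    {F : List Ω} {K : List κ} {A : List Ω} {b : List κ} (hA : A.Nodup) (hF : F.Nodup)
    (hF1 : ∀ t ∈ F, t ∈ A ∧ p t ∈ A ∧ p t ∉ F) (hg : ∀ t ∈ F, g t = none ∧ g (p t) = none)
    (hsep : ∀ (X Y Z : List Ω) (t t' : Ω), A = X ++ t :: (Y ++ t' :: Z) → (t ∈ F ∨ p t ∈ F) →
      (t' ∈ F ∨ p t' ∈ F) → ∃ x ∈ Y, g x ≠ none)
    (hout : K ≠ [] ∨ ∀ (X Y : List Ω) (t : Ω), A = X ++ t :: Y → (t ∈ F ∨ p t ∈ F) → ∃ x ∈ Y, g x ≠ none)
    (hnd : (K ++ A.filterMap g).Nodup) (hR : RR (K ++ A.filterMap g) b) (h19 : 19 ≤ F.length) :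
    Out p g F K A b := by
  classical
  have hpinj : ∀ s t, p s = p t → s = t := fun s t h => by rw [← hinv s, h, hinv]
  have hgn : ∀ t, (t ∈ F ∨ p t ∈ F) → g t = none := by
    intro t ht
    rcases ht with h | h
    · exact (hg t h).1
    · have := (hg _ h).2
      rwa [hinv] at this
  have hmA : ∀ t, (t ∈ F ∨ p t ∈ F) → t ∈ A := by
    intro t ht
    rcases ht with h | h
    · exact (hF1 t h).1
    · have := (hF1 _ h).2.1
      rwa [hinv] at this
  have hFp : ∀ t, (t ∈ F ∨ p t ∈ F) → (p t ∈ F ∨ p (p t) ∈ F) := by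
    intro t ht
    rw [hinv]
    exact ht.symm
  let G : Finset Ω := A.toFinset.filter (fun t => (t ∈ F ∨ p t ∈ F) ∧ A.idxOf t < A.idxOf (p t))
  have hGm : ∀ t ∈ G, (t ∈ F ∨ p t ∈ F) ∧ A.idxOf t < A.idxOf (p t) := by
    intro t ht
    exact (Finset.mem_filter.mp ht).2
  have hidx : ∀ s t, s ∈ A → A.idxOf s = A.idxOf t → s = t := by
    intro s t hs h
    exact (List.idxOf_inj hs).mp h
  have hcard : 19 ≤ G.card := by
    have h1 : F.toFinset.card = F.length := List.toFinset_card_of_nodup hF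
    rw [← h1] at h19
    refine h19.trans (Finset.card_le_card_of_injOn (fun t => if A.idxOf t < A.idxOf (p t) then t else p t) ?_ ?_)
    · intro t ht
      have ht : t ∈ F := by simpa using ht
      have hne : A.idxOf t ≠ A.idxOf (p t) := fun h => hnp t (hidx t (p t) (hF1 t ht).1 h).symm
      simp only [G, Finset.coe_filter, Set.mem_ofPred_eq, List.mem_toFinset]
      by_cases h : A.idxOf t < A.idxOf (p t)
      · rw [if_pos h]
        exact ⟨(hF1 t ht).1, Or.inl ht, h⟩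
      · rw [if_neg h]
        refine ⟨(hF1 t ht).2.1, Or.inr (by rwa [hinv]), ?_⟩
        rw [hinv]
        omega
    · intro s hs t ht hst
      have hs : s ∈ F := by simpa using hs
      have ht : t ∈ F := by simpa using ht
      simp only at hst
      by_cases h1 : A.idxOf s < A.idxOf (p s) <;> by_cases h2 : A.idxOf t < A.idxOf (p t)
      · rwa [if_pos h1, if_pos h2] at hst
      · rw [if_pos h1, if_neg h2] at hst
        exact absurd (hst ▸ hs) (hF1 t ht).2.2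
      · rw [if_neg h1, if_pos h2] at hst
        exact absurd (hst ▸ ht) (hF1 s hs).2.2
      · rw [if_neg h1, if_neg h2] at hst
        exact hpinj _ _ hst
  have hes := es19 G (fun t => A.idxOf t) (fun t => A.idxOf (p t))
    (fun s hs t _ h => hidx s t (hmA s (hGm s hs).1) h)
    (fun s hs t _ h => hpinj s t (hidx _ _ (hmA _ (hFp s (hGm s hs).1)) h))
    (fun s hs => (hGm s hs).2)
    (fun s hs t ht h => by
      have h1 : s = p t := hidx _ _ (hmA s (hGm s hs).1) h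
      have h2 := (hGm s hs).2
      rw [h1, hinv] at h2
      exact absurd h2 (not_lt.mpr (hGm t ht).2.le)) hcard
  have hlast : ∀ (X0 X : List Ω) (t : Ω), A = X0 ++ t :: X → (t ∈ F ∨ p t ∈ F) → ∀ L : List κ,
      X.filterMap g ++ (K ++ L) ≠ [] := by
    intro X0 X t h ht L
    rcases hout with h1 | h1
    · cases K with
      | nil => exact absurd rfl h1
      | cons k K => simp
    · have := core_ne (h1 X0 X t h ht)
      intro h0
      rw [List.append_eq_nil_iff] at h0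
      exact this h0.1
  rcases hes with ⟨r, hr, s, hs, t, ht, q, hq, h1, h2, h3, h4, h5, h6⟩ | ⟨r, hr, s, hs, t, ht, q, hq, h1, h2, h3, h4, h5, h6, h7⟩ |
    ⟨r, hr, s, hs, t, ht, h1, h2⟩
  · -- nest
    have h7 := (hGm q hq).2
    obtain ⟨X0, Xs, hlen, hAX⟩ := decomp [r, s, t, q, p q, p t, p s, p r] A hA (by
      simp only [List.mem_cons, List.not_mem_nil, or_false, forall_eq_or_imp, forall_eq]
      exact ⟨hmA _ (hGm r hr).1, hmA _ (hGm s hs).1, hmA _ (hGm t ht).1, hmA _ (hGm q hq).1, hmA _ (hFp _ (hGm q hq).1), hmA _ (hFp _ (hGm t ht).1), hmA _ (hFp _ (hGm s hs).1), hmA _ (hFp _ (hGm r hr).1)⟩) (by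
      simp only [List.pairwise_cons, List.mem_cons, List.not_mem_nil, or_false, forall_eq_or_imp, forall_eq,
        IsEmpty.forall_iff, implies_true, List.Pairwise.nil, and_true]
      omega)
    obtain ⟨X1, X2, X3, X4, X5, X6, X7, X8, rfl⟩ := list8 (by simpa using hlen)
    simp only [List.zipWith_cons_cons, List.zipWith_nil_left, List.flatten_cons, List.flatten_nil, List.append_nil,
      List.cons_append] at hAX
    have gr := hgn r (hGm r hr).1
    have gs := hgn s (hGm s hs).1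
    have gt := hgn t (hGm t ht).1
    have gpr := hgn _ (hFp r (hGm r hr).1)
    have gps := hgn _ (hFp s (hGm s hs).1)
    have gpt := hgn _ (hFp t (hGm t ht).1)
    have gq := hgn q (hGm q hq).1
    have gpq := hgn _ (hFp q (hGm q hq).1)
    have n1 : X1.filterMap g ≠ [] := core_ne (hsep (X0) X1 (X2 ++ t :: (X3 ++ q :: (X4 ++ p q :: (X5 ++ p t :: (X6 ++ p s :: (X7 ++ p r :: (X8))))))) (r) (s) (by simp [hAX]) (hGm r hr).1 (hGm s hs).1)
    have n2 : X2.filterMap g ≠ [] := core_ne (hsep (X0 ++ r :: (X1)) X2 (X3 ++ q :: (X4 ++ p q :: (X5 ++ p t :: (X6 ++ p s :: (X7 ++ p r :: (X8)))))) (s) (t) (by simp [hAX]) (hGm s hs).1 (hGm t ht).1)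
    have n3 : X3.filterMap g ≠ [] := core_ne (hsep (X0 ++ r :: (X1 ++ s :: (X2))) X3 (X4 ++ p q :: (X5 ++ p t :: (X6 ++ p s :: (X7 ++ p r :: (X8))))) (t) (q) (by simp [hAX]) (hGm t ht).1 (hGm q hq).1)
    have n4 : X4.filterMap g ≠ [] := core_ne (hsep (X0 ++ r :: (X1 ++ s :: (X2 ++ t :: (X3)))) X4 (X5 ++ p t :: (X6 ++ p s :: (X7 ++ p r :: (X8)))) (q) (p q) (by simp [hAX]) (hGm q hq).1 (hFp _ (hGm q hq).1))
    have n5 : X5.filterMap g ≠ [] := core_ne (hsep (X0 ++ r :: (X1 ++ s :: (X2 ++ t :: (X3 ++ q :: (X4))))) X5 (X6 ++ p s :: (X7 ++ p r :: (X8))) (p q) (p t) (by simp [hAX]) (hFp _ (hGm q hq).1) (hFp _ (hGm t ht).1))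
    have n6 : X6.filterMap g ≠ [] := core_ne (hsep (X0 ++ r :: (X1 ++ s :: (X2 ++ t :: (X3 ++ q :: (X4 ++ p q :: (X5)))))) X6 (X7 ++ p r :: (X8)) (p t) (p s) (by simp [hAX]) (hFp _ (hGm t ht).1) (hFp _ (hGm s hs).1))
    have n7 : X7.filterMap g ≠ [] := core_ne (hsep (X0 ++ r :: (X1 ++ s :: (X2 ++ t :: (X3 ++ q :: (X4 ++ p q :: (X5 ++ p t :: (X6))))))) X7 (X8) (p s) (p r) (by simp [hAX]) (hFp _ (hGm s hs).1) (hFp _ (hGm r hr).1))
    have n0 := hlast (X0 ++ r :: (X1 ++ s :: (X2 ++ t :: (X3 ++ q :: (X4 ++ p q :: (X5 ++ p t :: (X6 ++ p s :: (X7)))))))) X8 (p r) (by simp [hAX]) (hFp _ (hGm r hr).1) (X0.filterMap g)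
    have hcore : A.filterMap g = X0.filterMap g ++ (X1.filterMap g ++ (X2.filterMap g ++ (X3.filterMap g ++ (X4.filterMap g ++
        (X5.filterMap g ++ (X6.filterMap g ++ (X7.filterMap g ++ X8.filterMap g))))))) := by
      rw [hAX]
      simp [gr, gs, gt, gpr, gps, gpt, gq, gpq, List.filterMap_append]
    rw [hcore] at hnd hR
    have hc := nest_core K b _ _ _ _ _ _ _ _ _ n0 n1 n2 n3 n4 n5 n6 n7 hnd hR
    rcases hc with hc | hc | hc | hc
    · refine ⟨r, s, t, X0, X1, X2, X3 ++ q :: (X4 ++ p q :: X5), X6, X7, X8, (hGm r hr).1, (hGm s hs).1, (hGm t ht).1, Or.inr (Or.inr ⟨?_, ?_⟩)⟩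
      · rw [hAX]; simp
      · simpa [ne, gr, gs, gt, gpr, gps, gpt, gq, gpq, List.filterMap_append] using hc
    · refine ⟨r, s, q, X0, X1, X2 ++ t :: X3, X4, X5 ++ p t :: X6, X7, X8, (hGm r hr).1, (hGm s hs).1, (hGm q hq).1, Or.inr (Or.inr ⟨?_, ?_⟩)⟩
      · rw [hAX]; simp
      · simpa [ne, gr, gs, gt, gpr, gps, gpt, gq, gpq, List.filterMap_append] using hc
    · refine ⟨r, t, q, X0, X1 ++ s :: X2, X3, X4, X5, X6 ++ p s :: X7, X8, (hGm r hr).1, (hGm t ht).1, (hGm q hq).1, Or.inr (Or.inr ⟨?_, ?_⟩)⟩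
      · rw [hAX]; simp
      · simpa [ne, gr, gs, gt, gpr, gps, gpt, gq, gpq, List.filterMap_append] using hc
    · refine ⟨s, t, q, X0 ++ r :: X1, X2, X3, X4, X5, X6, X7 ++ p r :: X8, (hGm s hs).1, (hGm t ht).1, (hGm q hq).1, Or.inr (Or.inr ⟨?_, ?_⟩)⟩
      · rw [hAX]; simp
      · simpa [ne, gr, gs, gt, gpr, gps, gpt, gq, gpq, List.filterMap_append] using hc
  · -- cross
    obtain ⟨X0, Xs, hlen, hAX⟩ := decomp [r, s, t, q, p r, p s, p t, p q] A hA (by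
      simp only [List.mem_cons, List.not_mem_nil, or_false, forall_eq_or_imp, forall_eq]
      exact ⟨hmA _ (hGm r hr).1, hmA _ (hGm s hs).1, hmA _ (hGm t ht).1, hmA _ (hGm q hq).1, hmA _ (hFp _ (hGm r hr).1), hmA _ (hFp _ (hGm s hs).1), hmA _ (hFp _ (hGm t ht).1), hmA _ (hFp _ (hGm q hq).1)⟩) (by
      simp only [List.pairwise_cons, List.mem_cons, List.not_mem_nil, or_false, forall_eq_or_imp, forall_eq,
        IsEmpty.forall_iff, implies_true, List.Pairwise.nil, and_true]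
      omega)
    obtain ⟨X1, X2, X3, X4, X5, X6, X7, X8, rfl⟩ := list8 (by simpa using hlen)
    simp only [List.zipWith_cons_cons, List.zipWith_nil_left, List.flatten_cons, List.flatten_nil, List.append_nil,
      List.cons_append] at hAX
    have gr := hgn r (hGm r hr).1
    have gs := hgn s (hGm s hs).1
    have gt := hgn t (hGm t ht).1
    have gpr := hgn _ (hFp r (hGm r hr).1)
    have gps := hgn _ (hFp s (hGm s hs).1)
    have gpt := hgn _ (hFp t (hGm t ht).1)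
    have gq := hgn q (hGm q hq).1
    have gpq := hgn _ (hFp q (hGm q hq).1)
    have n1 : X1.filterMap g ≠ [] := core_ne (hsep (X0) X1 (X2 ++ t :: (X3 ++ q :: (X4 ++ p r :: (X5 ++ p s :: (X6 ++ p t :: (X7 ++ p q :: (X8))))))) (r) (s) (by simp [hAX]) (hGm r hr).1 (hGm s hs).1)
    have n2 : X2.filterMap g ≠ [] := core_ne (hsep (X0 ++ r :: (X1)) X2 (X3 ++ q :: (X4 ++ p r :: (X5 ++ p s :: (X6 ++ p t :: (X7 ++ p q :: (X8)))))) (s) (t) (by simp [hAX]) (hGm s hs).1 (hGm t ht).1)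
    have n3 : X3.filterMap g ≠ [] := core_ne (hsep (X0 ++ r :: (X1 ++ s :: (X2))) X3 (X4 ++ p r :: (X5 ++ p s :: (X6 ++ p t :: (X7 ++ p q :: (X8))))) (t) (q) (by simp [hAX]) (hGm t ht).1 (hGm q hq).1)
    have n4 : X4.filterMap g ≠ [] := core_ne (hsep (X0 ++ r :: (X1 ++ s :: (X2 ++ t :: (X3)))) X4 (X5 ++ p s :: (X6 ++ p t :: (X7 ++ p q :: (X8)))) (q) (p r) (by simp [hAX]) (hGm q hq).1 (hFp _ (hGm r hr).1))
    have n5 : X5.filterMap g ≠ [] := core_ne (hsep (X0 ++ r :: (X1 ++ s :: (X2 ++ t :: (X3 ++ q :: (X4))))) X5 (X6 ++ p t :: (X7 ++ p q :: (X8))) (p r) (p s) (by simp [hAX]) (hFp _ (hGm r hr).1) (hFp _ (hGm s hs).1))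
    have n6 : X6.filterMap g ≠ [] := core_ne (hsep (X0 ++ r :: (X1 ++ s :: (X2 ++ t :: (X3 ++ q :: (X4 ++ p r :: (X5)))))) X6 (X7 ++ p q :: (X8)) (p s) (p t) (by simp [hAX]) (hFp _ (hGm s hs).1) (hFp _ (hGm t ht).1))
    have n7 : X7.filterMap g ≠ [] := core_ne (hsep (X0 ++ r :: (X1 ++ s :: (X2 ++ t :: (X3 ++ q :: (X4 ++ p r :: (X5 ++ p s :: (X6))))))) X7 (X8) (p t) (p q) (by simp [hAX]) (hFp _ (hGm t ht).1) (hFp _ (hGm q hq).1))
    have n0 := hlast (X0 ++ r :: (X1 ++ s :: (X2 ++ t :: (X3 ++ q :: (X4 ++ p r :: (X5 ++ p s :: (X6 ++ p t :: (X7)))))))) X8 (p q) (by simp [hAX]) (hFp _ (hGm q hq).1) (X0.filterMap g)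
    have hcore : A.filterMap g = X0.filterMap g ++ (X1.filterMap g ++ (X2.filterMap g ++ (X3.filterMap g ++ (X4.filterMap g ++
        (X5.filterMap g ++ (X6.filterMap g ++ (X7.filterMap g ++ X8.filterMap g))))))) := by
      rw [hAX]
      simp [gr, gs, gt, gpr, gps, gpt, gq, gpq, List.filterMap_append]
    rw [hcore] at hnd hR
    have hc := cross_core K b _ _ _ _ _ _ _ _ _ n0 n1 n2 n3 n4 n5 n6 n7 hnd hR
    rcases hc with hc | hc | hc | hc
    · refine ⟨r, s, t, X0, X1, X2, X3 ++ q :: X4, X5, X6, X7 ++ p q :: X8, (hGm r hr).1, (hGm s hs).1, (hGm t ht).1, Or.inr (Or.inl ⟨?_, ?_⟩)⟩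
      · rw [hAX]; simp
      · simpa [cr, gr, gs, gt, gpr, gps, gpt, gq, gpq, List.filterMap_append] using hc
    · refine ⟨r, s, q, X0, X1, X2 ++ t :: X3, X4, X5, X6 ++ p t :: X7, X8, (hGm r hr).1, (hGm s hs).1, (hGm q hq).1, Or.inr (Or.inl ⟨?_, ?_⟩)⟩
      · rw [hAX]; simp
      · simpa [cr, gr, gs, gt, gpr, gps, gpt, gq, gpq, List.filterMap_append] using hc
    · refine ⟨r, t, q, X0, X1 ++ s :: X2, X3, X4, X5 ++ p s :: X6, X7, X8, (hGm r hr).1, (hGm t ht).1, (hGm q hq).1, Or.inr (Or.inl ⟨?_, ?_⟩)⟩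
      · rw [hAX]; simp
      · simpa [cr, gr, gs, gt, gpr, gps, gpt, gq, gpq, List.filterMap_append] using hc
    · refine ⟨s, t, q, X0 ++ r :: X1, X2, X3, X4 ++ p r :: X5, X6, X7, X8, (hGm s hs).1, (hGm t ht).1, (hGm q hq).1, Or.inr (Or.inl ⟨?_, ?_⟩)⟩
      · rw [hAX]; simp
      · simpa [cr, gr, gs, gt, gpr, gps, gpt, gq, gpq, List.filterMap_append] using hc
  · -- seq
    have h3 := (hGm r hr).2
    have h4 := (hGm s hs).2
    have h5 := (hGm t ht).2
    obtain ⟨X0, Xs, hlen, hAX⟩ := decomp [r, p r, s, p s, t, p t] A hA (by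
      simp only [List.mem_cons, List.not_mem_nil, or_false, forall_eq_or_imp, forall_eq]
      exact ⟨hmA _ (hGm r hr).1, hmA _ (hFp _ (hGm r hr).1), hmA _ (hGm s hs).1, hmA _ (hFp _ (hGm s hs).1), hmA _ (hGm t ht).1, hmA _ (hFp _ (hGm t ht).1)⟩) (by
      simp only [List.pairwise_cons, List.mem_cons, List.not_mem_nil, or_false, forall_eq_or_imp, forall_eq,
        IsEmpty.forall_iff, implies_true, List.Pairwise.nil, and_true]
      omega)
    obtain ⟨X1, X2, X3, X4, X5, X6, rfl⟩ := list6 (by simpa using hlen)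
    simp only [List.zipWith_cons_cons, List.zipWith_nil_left, List.flatten_cons, List.flatten_nil, List.append_nil,
      List.cons_append] at hAX
    have gr := hgn r (hGm r hr).1
    have gs := hgn s (hGm s hs).1
    have gt := hgn t (hGm t ht).1
    have gpr := hgn _ (hFp r (hGm r hr).1)
    have gps := hgn _ (hFp s (hGm s hs).1)
    have gpt := hgn _ (hFp t (hGm t ht).1)
    have n1 : X1.filterMap g ≠ [] := core_ne (hsep (X0) X1 (X2 ++ s :: (X3 ++ p s :: (X4 ++ t :: (X5 ++ p t :: (X6))))) (r) (p r) (by simp [hAX]) (hGm r hr).1 (hFp _ (hGm r hr).1))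
    have n2 : X2.filterMap g ≠ [] := core_ne (hsep (X0 ++ r :: (X1)) X2 (X3 ++ p s :: (X4 ++ t :: (X5 ++ p t :: (X6)))) (p r) (s) (by simp [hAX]) (hFp _ (hGm r hr).1) (hGm s hs).1)
    have n3 : X3.filterMap g ≠ [] := core_ne (hsep (X0 ++ r :: (X1 ++ p r :: (X2))) X3 (X4 ++ t :: (X5 ++ p t :: (X6))) (s) (p s) (by simp [hAX]) (hGm s hs).1 (hFp _ (hGm s hs).1))
    have n4 : X4.filterMap g ≠ [] := core_ne (hsep (X0 ++ r :: (X1 ++ p r :: (X2 ++ s :: (X3)))) X4 (X5 ++ p t :: (X6)) (p s) (t) (by simp [hAX]) (hFp _ (hGm s hs).1) (hGm t ht).1)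
    have n5 : X5.filterMap g ≠ [] := core_ne (hsep (X0 ++ r :: (X1 ++ p r :: (X2 ++ s :: (X3 ++ p s :: (X4))))) X5 (X6) (t) (p t) (by simp [hAX]) (hGm t ht).1 (hFp _ (hGm t ht).1))
    have n0 := hlast (X0 ++ r :: (X1 ++ p r :: (X2 ++ s :: (X3 ++ p s :: (X4 ++ t :: (X5)))))) X6 (p t) (by simp [hAX]) (hFp _ (hGm t ht).1) (X0.filterMap g)
    have hcore : A.filterMap g = X0.filterMap g ++ (X1.filterMap g ++ (X2.filterMap g ++ (X3.filterMap g ++ (X4.filterMap g ++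
        (X5.filterMap g ++ X6.filterMap g))))) := by
      rw [hAX]
      simp [gr, gs, gt, gpr, gps, gpt, List.filterMap_append]
    rw [hcore] at hnd hR
    have hc := seq_core K b _ _ _ _ _ _ _ n0 n1 n2 n3 n4 n5 hnd hR
    refine ⟨r, s, t, X0, X1, X2, X3, X4, X5, X6, (hGm r hr).1, (hGm s hs).1, (hGm t ht).1, Or.inl ⟨hAX, ?_⟩⟩
    simpa [sA, sB, sC, List.filterMap_append] using hc

end NTU
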