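import Mathlib

/-!
# Run-reversed pairs of cyclic words

`RR a b`: there is a list of runs `R1, ..., Rk` with `a ~ R1 R2 ... Rk` and `b ~ Rk ... R2 R1`
(cyclic words).
-/

set_option autoImplicit false

namespace NTU

universe u v

variable {α : Type u} {β : Type v}

/-- run-reversed pair of cyclic words -/
def RR (a b : List α) : Prop :=
  ∃ rs : List (List α), a ~r rs.flatten ∧ b ~r rs.reverse.flatten

theorem RR.symm {a b : List α} (h : RR a b) : RR b a := by
  obtain ⟨rs, h1, h2⟩ := h
  exact ⟨rs.reverse, h2, by rwa [List.reverse_reverse]⟩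

theorem RR.rotl {a a' b : List α} (h : RR a b) (ha : a' ~r a) : RR a' b := by
  obtain ⟨rs, h1, h2⟩ := h
  exact ⟨rs, ha.trans h1, h2⟩

theorem RR.rotr {a b b' : List α} (h : RR a b) (hb : b' ~r b) : RR a b' := by
  obtain ⟨rs, h1, h2⟩ := h
  exact ⟨rs, h1, hb.trans h2⟩

theorem rotated_exists {a b : List α} (h : a ~r b) : ∃ x y, a = x ++ y ∧ b = y ++ x := by
  obtain ⟨n, hn⟩ := h
  refine ⟨a.take (n % a.length), a.drop (n % a.length), (List.take_append_drop _ _).symm, ?_⟩
  rw [← hn, List.rotate_eq_drop_append_take_mod]

theorem rotated_filterMap (f : α → Option β) {a b : List α} (h : a ~r b) :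
    a.filterMap f ~r b.filterMap f := by
  obtain ⟨x, y, rfl, rfl⟩ := rotated_exists h
  rw [List.filterMap_append, List.filterMap_append]
  exact List.isRotated_append

theorem flatten_filterMap (f : α → Option β) (rs : List (List α)) :
    (rs.flatten).filterMap f = (rs.map (List.filterMap f)).flatten := by
  induction rs with
  | nil => simp
  | cons r rs ih => simp [List.filterMap_append, ih]

theorem RR.filterMap (f : α → Option β) {a b : List α} (h : RR a b) :
    RR (a.filterMap f) (b.filterMap f) := by
  obtain ⟨rs, h1, h2⟩ := h
  refine ⟨rs.map (List.filterMap f), ?_, ?_⟩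
  · rw [← flatten_filterMap]; exact rotated_filterMap f h1
  · rw [← List.map_reverse, ← flatten_filterMap]; exact rotated_filterMap f h2

theorem RR.filter (q : α → Bool) {a b : List α} (h : RR a b) : RR (a.filter q) (b.filter q) := by
  have h0 := h.filterMap (fun x => if q x then some x else none)
  have e : ∀ l : List α, l.filterMap (fun x => if q x then some x else none) = l.filter q := by
    intro l
    induction l with
    | nil => simp
    | cons x l ih =>
      by_cases hx : q x = true
      · simp [hx, ih]
      · simp [hx, ih]
  rwa [e, e] at h0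

/-! ## Enumeration -/

/-- all run-reversals of a word, as pairs (rest, first run) -/
def revs : List α → List (List α × List α)
  | [] => [([], [])]
  | [x] => [([], [x])]
  | x :: y :: xs => (revs (y :: xs)).flatMap (fun q => [(q.1 ++ q.2, [x]), (q.1, x :: q.2)])

theorem mem_revs (rs : List (List α)) : ∀ (r : List α), r ≠ [] → (∀ s ∈ rs, s ≠ []) →
    (rs.reverse.flatten, r) ∈ revs (r ++ rs.flatten) := by
  induction rs with
  | nil =>
    intro r hr _
    simp only [List.reverse_nil, List.flatten_nil, List.append_nil]
    induction r with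
    | nil => exact absurd rfl hr
    | cons x r ih =>
      cases r with
      | nil => simp [revs]
      | cons y r =>
        have := ih (by simp)
        rw [revs, List.mem_flatMap]
        exact ⟨_, this, by simp⟩
  | cons s rs ih =>
    intro r hr hrs
    have hs : s ≠ [] := hrs s (by simp)
    have key := ih s hs (fun t ht => hrs t (by simp [ht]))
    induction r with
    | nil => exact absurd rfl hr
    | cons x r ihr =>
      cases r with
      | nil =>
        obtain ⟨z, s', rfl⟩ : ∃ z s', s = z :: s' := by
          cases s with
          | nil => exact absurd rfl hs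
          | cons z s' => exact ⟨z, s', rfl⟩
        simp only [List.flatten_cons, List.cons_append, List.nil_append] at key ⊢
        rw [revs, List.mem_flatMap]
        exact ⟨_, key, by simp⟩
      | cons y r =>
        have := ihr (by simp)
        simp only [List.cons_append] at this ⊢
        rw [revs, List.mem_flatMap]
        exact ⟨_, this, by simp⟩

theorem flatten_filter_ne (rs : List (List α)) :
    (rs.filter (fun r => !r.isEmpty)).flatten = rs.flatten := by
  induction rs with
  | nil => simp
  | cons r rs ih =>
    cases r with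
    | nil => simp [ih]
    | cons x r => simp [ih]

/-- the pair is in the explicit list of all run-reversals -/
theorem RR.enum {a b : List α} (h : RR a b) (ha : a ≠ []) :
    ∃ i < a.length, ∃ q ∈ revs (a.rotate i), b ~r q.1 ++ q.2 := by
  obtain ⟨rs0, h1, h2⟩ := h
  obtain ⟨rs, hne, h1, h2⟩ : ∃ rs : List (List α), (∀ r ∈ rs, r ≠ []) ∧ a ~r rs.flatten ∧
      b ~r rs.reverse.flatten := by
    refine ⟨rs0.filter (fun r => !r.isEmpty), ?_, ?_, ?_⟩
    · intro r hr
      rw [List.mem_filter] at hr
      intro h0
      simp [h0] at hr
    · rw [flatten_filter_ne]; exact h1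
    · rw [← List.filter_reverse, flatten_filter_ne]; exact h2
  obtain ⟨n, hn⟩ := h1
  have hl : 0 < a.length := List.length_pos_iff.mpr ha
  refine ⟨n % a.length, Nat.mod_lt _ hl, ?_⟩
  rw [List.rotate_mod, hn]
  cases rs with
  | nil =>
    simp only [List.flatten_nil] at hn
    exact absurd (List.rotate_eq_nil_iff.mp hn) ha
  | cons r rs =>
    refine ⟨_, mem_revs rs r (hne r (by simp)) (fun s hs => hne s (by simp [hs])), ?_⟩
    simpa using h2

theorem not_RR_of {a b : List α} [DecidableEq α] (ha : a ≠ [])
    (h : ∀ i < a.length, ∀ q ∈ revs (a.rotate i), ¬ (b ~r q.1 ++ q.2)) : ¬ RR a b := by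
  intro hr
  obtain ⟨i, hi, q, hq, hb⟩ := hr.enum ha
  exact h i hi q hq hb

/-! ## Substitution of contents for letters -/

theorem exists_relabel (V : ℕ → List α) (n : ℕ) (hne : ∀ j < n, V j ≠ [])
    (hnd : ((List.range n).map V).flatten.Nodup) :
    ∃ f : α → Option ℕ, ∀ σ : List ℕ, (∀ j ∈ σ, j < n) →
      ((σ.map V).flatten).filterMap f = σ := by
  classical
  rw [List.nodup_flatten] at hnd
  obtain ⟨hn1, hn2⟩ := hnd
  have hdis : ∀ i < n, ∀ j < n, i ≠ j → List.Disjoint (V i) (V j) := by
    intro i hi j hj hij
    rw [List.pairwise_map] at hn2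
    have hr : List.Pairwise (fun a b => a < b) (List.range n) := List.pairwise_lt_range
    rcases lt_or_gt_of_ne hij with h | h
    · have := (List.pairwise_iff_getElem.mp hn2) i j (by simpa using hi) (by simpa using hj) h
      simpa using this
    · have := (List.pairwise_iff_getElem.mp hn2) j i (by simpa using hj) (by simpa using hi) h
      have h2 : List.Disjoint (V j) (V i) := by simpa using this
      exact h2.symm
  refine ⟨fun x => if h : ∃ j, j < n ∧ (V j).head? = some x then some h.choose else none, ?_⟩
  intro σ
  induction σ with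
  | nil => intro _; simp
  | cons j σ ih =>
    intro hσ
    have hj : j < n := hσ j (by simp)
    rw [List.map_cons, List.flatten_cons, List.filterMap_append, ih (fun i hi => hσ i (by simp [hi]))]
    obtain ⟨v, V', hV⟩ : ∃ v V', V j = v :: V' := by
      cases h : V j with
      | nil => exact absurd h (hne j hj)
      | cons v V' => exact ⟨v, V', rfl⟩
    have hnj : (V j).Nodup := hn1 (V j) (List.mem_map.mpr ⟨j, by simpa using hj, rfl⟩)
    have huniq : ∀ i < n, ∀ x, x ∈ V j → (V i).head? = some x → i = j := by
      intro i hi x hx hix
      by_contra hij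
      exact (hdis i hi j hj hij) (List.mem_of_head? hix) hx
    have hv : ∃ i, i < n ∧ (V i).head? = some v := ⟨j, hj, by simp [hV]⟩
    have hvj : hv.choose = j := huniq _ hv.choose_spec.1 v (by simp [hV]) hv.choose_spec.2
    have hrest : V'.filterMap (fun x => if h : ∃ j, j < n ∧ (V j).head? = some x then some h.choose else none) = [] := by
      rw [List.filterMap_eq_nil_iff]
      intro x hx
      have hno : ¬ ∃ i, i < n ∧ (V i).head? = some x := by
        rintro ⟨i, hi, hix⟩
        have := huniq i hi x (by simp [hV, hx]) hix
        subst this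
        rw [hV] at hix hnj
        simp only [List.head?_cons, Option.some.injEq] at hix
        subst hix
        exact (List.nodup_cons.mp hnj).1 hx
      simp only [dif_neg hno]
    have h1 : (V j).filterMap (fun x => if h : ∃ j, j < n ∧ (V j).head? = some x then some h.choose else none) = [j] := by
      rw [hV, List.filterMap_cons, dif_pos hv, hrest, hvj]
    rw [h1]
    rfl

/-- to disprove `RR` it is enough to disprove it for one letter of each content -/
theorem RR.relabel (V : ℕ → List α) (n : ℕ) (hne : ∀ j < n, V j ≠ [])
    (hnd : ((List.range n).map V).flatten.Nodup) (b : List α) :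
    ∃ b' : List ℕ, ∀ σ : List ℕ, (∀ j ∈ σ, j < n) → RR ((σ.map V).flatten) b → RR σ b' := by
  obtain ⟨f, hf⟩ := exists_relabel V n hne hnd
  refine ⟨b.filterMap f, fun σ hσ h => ?_⟩
  have := h.filterMap f
  rwa [hf σ hσ] at this

end NTU
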