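import Pool.Agent.helper2.NTU.Fin
import Pool.Agent.helper2.NTU.ES

/-!
# Un-reversing: isolated chords destroy a run-reversed core (MP_c8d30a (A), section 5)
-/

set_option autoImplicit false

namespace NTU

universe u v
variable {Ω : Type u} {κ : Type v}

/-- the contents of six tokens after the sides-preserving composites -/
def sA (X0 X1 X2 X3 X4 X5 X6 : List Ω) : List Ω := X0 ++ (X4 ++ (X1 ++ (X3 ++ (X5 ++ (X2 ++ X6)))))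
def sB (X0 X1 X2 X3 X4 X5 X6 : List Ω) : List Ω := X0 ++ (X3 ++ (X5 ++ (X1 ++ (X4 ++ (X2 ++ X6)))))
def sC (X0 X1 X2 X3 X4 X5 X6 : List Ω) : List Ω := X0 ++ (X4 ++ (X2 ++ (X5 ++ (X1 ++ (X3 ++ X6)))))
def cr (X0 X1 X2 X3 X4 X5 X6 : List Ω) : List Ω := X0 ++ (X2 ++ (X1 ++ (X3 ++ (X5 ++ (X4 ++ X6)))))
def ne (X0 X1 X2 X3 X4 X5 X6 : List Ω) : List Ω := X0 ++ (X5 ++ (X2 ++ (X1 ++ (X4 ++ (X3 ++ X6)))))

theorem seq_core (K b V0 V1 V2 V3 V4 V5 V6 : List κ) (h0 : V6 ++ (K ++ V0) ≠ []) (h1 : V1 ≠ []) (h2 : V2 ≠ [])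
    (h3 : V3 ≠ []) (h4 : V4 ≠ []) (h5 : V5 ≠ [])
    (hnd : (K ++ (V0 ++ (V1 ++ (V2 ++ (V3 ++ (V4 ++ (V5 ++ V6))))))).Nodup)
    (hR : RR (K ++ (V0 ++ (V1 ++ (V2 ++ (V3 ++ (V4 ++ (V5 ++ V6))))))) b) :
    (¬ RR (K ++ sA V0 V1 V2 V3 V4 V5 V6) b ∨ ¬ RR (K ++ sB V0 V1 V2 V3 V4 V5 V6) b) ∧
    (¬ RR (K ++ sA V0 V1 V2 V3 V4 V5 V6) b ∨ ¬ RR (K ++ sC V0 V1 V2 V3 V4 V5 V6) b) := by
  let V : ℕ → List κ := fun j => match j with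
    | 0 => V6 ++ (K ++ V0)
    | 1 => V1
    | 2 => V2
    | 3 => V3
    | 4 => V4
    | 5 => V5
    | _ => []
  have hrot : ((List.range 6).map V).flatten ~r (K ++ (V0 ++ (V1 ++ (V2 ++ (V3 ++ (V4 ++ (V5 ++ V6))))))) := by
    have e1 : ((List.range 6).map V).flatten = V6 ++ (K ++ (V0 ++ (V1 ++ (V2 ++ (V3 ++ (V4 ++ V5)))))) := by
      simp [V, List.range_succ]
    have e2 : K ++ (V0 ++ (V1 ++ (V2 ++ (V3 ++ (V4 ++ (V5 ++ V6)))))) =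
        (K ++ (V0 ++ (V1 ++ (V2 ++ (V3 ++ (V4 ++ V5)))))) ++ V6 := by simp
    rw [e1, e2]
    exact List.isRotated_append
  have hne : ∀ j < 6, V j ≠ [] := by
    intro j hj
    interval_cases j
    · exact h0
    · exact h1
    · exact h2
    · exact h3
    · exact h4
    · exact h5
  obtain ⟨b', hb'⟩ := RR.relabel V 6 hne (hrot.nodup_iff.mpr hnd) b
  have hR6 : RR (List.range 6) b' := hb' _ (by simp) (hR.rotl hrot)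
  have hrotw : ∀ (W1 W2 W3 W4 W5 : List κ),
      (V6 ++ (K ++ V0)) ++ (W1 ++ (W2 ++ (W3 ++ (W4 ++ (W5 ++ []))))) ~r K ++ (V0 ++ (W1 ++ (W2 ++ (W3 ++ (W4 ++ (W5 ++ V6)))))) := by
    intro W1 W2 W3 W4 W5
    have e2 : K ++ (V0 ++ (W1 ++ (W2 ++ (W3 ++ (W4 ++ (W5 ++ V6)))))) =
        (K ++ (V0 ++ (W1 ++ (W2 ++ (W3 ++ (W4 ++ W5)))))) ++ V6 := by simp
    have e1 : (V6 ++ (K ++ V0)) ++ (W1 ++ (W2 ++ (W3 ++ (W4 ++ (W5 ++ []))))) =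
        V6 ++ (K ++ (V0 ++ (W1 ++ (W2 ++ (W3 ++ (W4 ++ W5)))))) := by simp
    rw [e1, e2]
    exact List.isRotated_append
  have hA : ¬ RR [0, 4, 1, 3, 5, 2] b' → ¬ RR (K ++ sA V0 V1 V2 V3 V4 V5 V6) b := by
    intro h h'
    exact h (hb' _ (by simp) (h'.rotl (hrotw V4 V1 V3 V5 V2)))
  have hB : ¬ RR [0, 3, 5, 1, 4, 2] b' → ¬ RR (K ++ sB V0 V1 V2 V3 V4 V5 V6) b := by
    intro h h'
    exact h (hb' _ (by simp) (h'.rotl (hrotw V3 V5 V1 V4 V2)))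
  have hC : ¬ RR [0, 4, 2, 5, 1, 3] b' → ¬ RR (K ++ sC V0 V1 V2 V3 V4 V5 V6) b := by
    intro h h'
    exact h (hb' _ (by simp) (h'.rotl (hrotw V4 V2 V5 V1 V3)))
  constructor
  · obtain ⟨w, hw, hw'⟩ := seqAB b' hR6
    simp only [List.mem_cons, List.not_mem_nil, or_false] at hw
    rcases hw with rfl | rfl
    · exact Or.inl (hA hw')
    · exact Or.inr (hB hw')
  · obtain ⟨w, hw, hw'⟩ := seqAC b' hR6
    simp only [List.mem_cons, List.not_mem_nil, or_false] at hw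
    rcases hw with rfl | rfl
    · exact Or.inl (hA hw')
    · exact Or.inr (hC hw')

/-- the letters of eight contents -/
theorem eight (K b V0 V1 V2 V3 V4 V5 V6 V7 V8 : List κ) (h0 : V8 ++ (K ++ V0) ≠ []) (h1 : V1 ≠ []) (h2 : V2 ≠ [])
    (h3 : V3 ≠ []) (h4 : V4 ≠ []) (h5 : V5 ≠ []) (h6 : V6 ≠ []) (h7 : V7 ≠ [])
    (hnd : (K ++ (V0 ++ (V1 ++ (V2 ++ (V3 ++ (V4 ++ (V5 ++ (V6 ++ (V7 ++ V8))))))))).Nodup)
    (hR : RR (K ++ (V0 ++ (V1 ++ (V2 ++ (V3 ++ (V4 ++ (V5 ++ (V6 ++ (V7 ++ V8))))))))) b) :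
    ∃ (V : ℕ → List κ) (b' : List ℕ), V 0 = V8 ++ (K ++ V0) ∧ V 1 = V1 ∧ V 2 = V2 ∧ V 3 = V3 ∧ V 4 = V4 ∧
      V 5 = V5 ∧ V 6 = V6 ∧ V 7 = V7 ∧ RR (List.range 8) b' ∧
      ∀ w1 w2 w3 w4 w5 w6 w7 : ℕ, (∀ j ∈ [0, w1, w2, w3, w4, w5, w6, w7], j < 8) →
        ¬ RR [0, w1, w2, w3, w4, w5, w6, w7] b' →
        ¬ RR (K ++ (V0 ++ (V w1 ++ (V w2 ++ (V w3 ++ (V w4 ++ (V w5 ++ (V w6 ++ (V w7 ++ V8))))))))) b := by
  let V : ℕ → List κ := fun j => match j with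
    | 0 => V8 ++ (K ++ V0)
    | 1 => V1
    | 2 => V2
    | 3 => V3
    | 4 => V4
    | 5 => V5
    | 6 => V6
    | 7 => V7
    | _ => []
  have hrotw : ∀ (W1 W2 W3 W4 W5 W6 W7 : List κ),
      (V8 ++ (K ++ V0)) ++ (W1 ++ (W2 ++ (W3 ++ (W4 ++ (W5 ++ (W6 ++ (W7 ++ []))))))) ~r
        K ++ (V0 ++ (W1 ++ (W2 ++ (W3 ++ (W4 ++ (W5 ++ (W6 ++ (W7 ++ V8)))))))) := by
    intro W1 W2 W3 W4 W5 W6 W7
    have e2 : K ++ (V0 ++ (W1 ++ (W2 ++ (W3 ++ (W4 ++ (W5 ++ (W6 ++ (W7 ++ V8)))))))) =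
        (K ++ (V0 ++ (W1 ++ (W2 ++ (W3 ++ (W4 ++ (W5 ++ (W6 ++ W7)))))))) ++ V8 := by simp
    have e1 : (V8 ++ (K ++ V0)) ++ (W1 ++ (W2 ++ (W3 ++ (W4 ++ (W5 ++ (W6 ++ (W7 ++ []))))))) =
        V8 ++ (K ++ (V0 ++ (W1 ++ (W2 ++ (W3 ++ (W4 ++ (W5 ++ (W6 ++ W7)))))))) := by simp
    rw [e1, e2]
    exact List.isRotated_append
  have hrot : ((List.range 8).map V).flatten ~r
      (K ++ (V0 ++ (V1 ++ (V2 ++ (V3 ++ (V4 ++ (V5 ++ (V6 ++ (V7 ++ V8))))))))) := by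
    have := hrotw V1 V2 V3 V4 V5 V6 V7
    have e1 : ((List.range 8).map V).flatten =
        (V8 ++ (K ++ V0)) ++ (V1 ++ (V2 ++ (V3 ++ (V4 ++ (V5 ++ (V6 ++ (V7 ++ []))))))) := by
      simp [V, List.range_succ]
    rwa [e1]
  have hne : ∀ j < 8, V j ≠ [] := by
    intro j hj
    interval_cases j
    · exact h0
    · exact h1
    · exact h2
    · exact h3
    · exact h4
    · exact h5
    · exact h6
    · exact h7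
  obtain ⟨b', hb'⟩ := RR.relabel V 8 hne (hrot.nodup_iff.mpr hnd) b
  refine ⟨V, b', rfl, rfl, rfl, rfl, rfl, rfl, rfl, rfl, hb' _ (by simp) (hR.rotl hrot), ?_⟩
  intro w1 w2 w3 w4 w5 w6 w7 hw h h'
  exact h (hb' _ hw (h'.rotl (hrotw _ _ _ _ _ _ _)))

theorem cross_core (K b V0 V1 V2 V3 V4 V5 V6 V7 V8 : List κ) (h0 : V8 ++ (K ++ V0) ≠ []) (h1 : V1 ≠ []) (h2 : V2 ≠ [])
    (h3 : V3 ≠ []) (h4 : V4 ≠ []) (h5 : V5 ≠ []) (h6 : V6 ≠ []) (h7 : V7 ≠ [])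
    (hnd : (K ++ (V0 ++ (V1 ++ (V2 ++ (V3 ++ (V4 ++ (V5 ++ (V6 ++ (V7 ++ V8))))))))).Nodup)
    (hR : RR (K ++ (V0 ++ (V1 ++ (V2 ++ (V3 ++ (V4 ++ (V5 ++ (V6 ++ (V7 ++ V8))))))))) b) :
    ¬ RR (K ++ cr V0 V1 V2 (V3 ++ V4) V5 V6 (V7 ++ V8)) b ∨
    ¬ RR (K ++ cr V0 V1 (V2 ++ V3) V4 V5 (V6 ++ V7) V8) b ∨
    ¬ RR (K ++ cr V0 (V1 ++ V2) V3 V4 (V5 ++ V6) V7 V8) b ∨
    ¬ RR (K ++ cr (V0 ++ V1) V2 V3 (V4 ++ V5) V6 V7 V8) b := by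
  obtain ⟨V, b', -, e1, e2, e3, e4, e5, e6, e7, hb, H⟩ := eight K b V0 V1 V2 V3 V4 V5 V6 V7 V8 h0 h1 h2 h3 h4 h5 h6 h7 hnd hR
  obtain ⟨w, hw, hw'⟩ := cross b' hb
  simp only [List.mem_cons, List.not_mem_nil, or_false] at hw
  rcases hw with rfl | rfl | rfl | rfl
  · left
    have := H _ _ _ _ _ _ _ (by decide) hw'
    simpa [cr, e1, e2, e3, e4, e5, e6, e7] using this
  · right; left
    have := H _ _ _ _ _ _ _ (by decide) hw'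
    simpa [cr, e1, e2, e3, e4, e5, e6, e7] using this
  · right; right; left
    have := H _ _ _ _ _ _ _ (by decide) hw'
    simpa [cr, e1, e2, e3, e4, e5, e6, e7] using this
  · right; right; right
    have := H _ _ _ _ _ _ _ (by decide) hw'
    simpa [cr, e1, e2, e3, e4, e5, e6, e7] using this

theorem nest_core (K b V0 V1 V2 V3 V4 V5 V6 V7 V8 : List κ) (h0 : V8 ++ (K ++ V0) ≠ []) (h1 : V1 ≠ []) (h2 : V2 ≠ [])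
    (h3 : V3 ≠ []) (h4 : V4 ≠ []) (h5 : V5 ≠ []) (h6 : V6 ≠ []) (h7 : V7 ≠ [])
    (hnd : (K ++ (V0 ++ (V1 ++ (V2 ++ (V3 ++ (V4 ++ (V5 ++ (V6 ++ (V7 ++ V8))))))))).Nodup)
    (hR : RR (K ++ (V0 ++ (V1 ++ (V2 ++ (V3 ++ (V4 ++ (V5 ++ (V6 ++ (V7 ++ V8))))))))) b) :
    ¬ RR (K ++ ne V0 V1 V2 (V3 ++ (V4 ++ V5)) V6 V7 V8) b ∨
    ¬ RR (K ++ ne V0 V1 (V2 ++ V3) V4 (V5 ++ V6) V7 V8) b ∨
    ¬ RR (K ++ ne V0 (V1 ++ V2) V3 V4 V5 (V6 ++ V7) V8) b ∨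
    ¬ RR (K ++ ne (V0 ++ V1) V2 V3 V4 V5 V6 (V7 ++ V8)) b := by
  obtain ⟨V, b', -, e1, e2, e3, e4, e5, e6, e7, hb, H⟩ := eight K b V0 V1 V2 V3 V4 V5 V6 V7 V8 h0 h1 h2 h3 h4 h5 h6 h7 hnd hR
  obtain ⟨w, hw, hw'⟩ := nest b' hb
  simp only [List.mem_cons, List.not_mem_nil, or_false] at hw
  rcases hw with rfl | rfl | rfl | rfl
  · left
    have := H _ _ _ _ _ _ _ (by decide) hw'
    simpa [ne, e1, e2, e3, e4, e5, e6, e7] using this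
  · right; left
    have := H _ _ _ _ _ _ _ (by decide) hw'
    simpa [ne, e1, e2, e3, e4, e5, e6, e7] using this
  · right; right; left
    have := H _ _ _ _ _ _ _ (by decide) hw'
    simpa [ne, e1, e2, e3, e4, e5, e6, e7] using this
  · right; right; right
    have := H _ _ _ _ _ _ _ (by decide) hw'
    simpa [ne, e1, e2, e3, e4, e5, e6, e7] using this

end NTU
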